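import Pool.Agent.W952.LP.Stm

/-!
# The space is compact (project LP)
-/

set_option autoImplicit false

namespace Pool.Agent.W612.LP

open Pool.Agent.W952.LP

/-- the heights are compact -/
lemma reach_cpt (G : Gd) (g : ℕ) : IsCompact {y : ℝ | G.Reach g y} := by
  by_cases hc : G.Complete g
  · have : {y : ℝ | G.Reach g y} = Set.Icc 0 1 := by
      ext y
      constructor
      · rintro ⟨h1, h2, _⟩
        exact ⟨h1, h2⟩
      · rintro ⟨h1, h2⟩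
        exact ⟨h1, h2, Or.inl hc⟩
    rw [this]
    exact isCompact_Icc
  · have hc' : ∃ b, ∀ c, ¬ G.T g b c = true := by
      by_contra hcon
      push Not at hcon
      exact hc hcon
    obtain ⟨b, hb⟩ := hc'
    have hle : ∀ b0, G.Good g b0 → b0 ≤ b := by
      intro b0 h0
      by_contra hlt
      obtain ⟨c, hcc⟩ := h0 b (by omega)
      exact hb c hcc
    have : {y : ℝ | G.Reach g y} = ⋃ b0 ∈ {b0 : ℕ | G.Good g b0},
        Set.Icc (0 : ℝ) (1 - (1 / 2 : ℝ) ^ b0) := by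
      ext y
      simp only [Set.mem_ofPred_eq, Set.mem_iUnion, Set.mem_Icc, exists_prop]
      constructor
      · rintro ⟨h1, _, h3⟩
        rcases h3 with h3 | ⟨b0, h4, h5⟩
        · exact absurd h3 hc
        · exact ⟨b0, h4, h1, h5⟩
      · rintro ⟨b0, h4, h1, h5⟩
        have : (0 : ℝ) < (1 / 2 : ℝ) ^ b0 := by positivity
        exact ⟨h1, by linarith, Or.inr ⟨b0, h4, h5⟩⟩
    rw [this]
    apply Set.Finite.isCompact_biUnion
    · exact (Set.finite_Iic b).subset (fun b0 h0 => hle b0 h0)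
    · intro _ _
      exact isCompact_Icc

lemma pt_cont (G : Gd) (g i : ℕ) : Continuous (G.pt g i) := by
  unfold Gd.pt
  fun_prop

lemma arc_cpt (G : Gd) (g i : ℕ) : IsCompact (G.pt g i '' {y : ℝ | G.Reach g y}) :=
  (reach_cpt G g).image (pt_cont G g i)

/-- the approximations -/
def SA (G : Gd) (m : ℕ) : Set (ℝ × ℝ × ℝ) :=
  ((fun x : ℝ => ((x, 0, 0) : ℝ × ℝ × ℝ)) '' Set.Icc 0 1) ∪
  ((⋃ g ∈ Finset.range m, ⋃ i ∈ Finset.range (G.nn g), G.pt g i '' {y : ℝ | G.Reach g y}) ∪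
  (Set.Icc (0 : ℝ) ((1 / 2 : ℝ) ^ m) ×ˢ (Set.Icc (-((1 / 2 : ℝ) ^ m)) ((1 / 2 : ℝ) ^ m) ×ˢ
    Set.Icc (-((1 / 2 : ℝ) ^ m)) ((1 / 2 : ℝ) ^ m))))

lemma SA_cpt (G : Gd) (m : ℕ) : IsCompact (SA G m) := by
  unfold SA
  apply IsCompact.union
  · exact isCompact_Icc.image (by fun_prop)
  apply IsCompact.union
  · apply Finset.isCompact_biUnion
    intro g _
    apply Finset.isCompact_biUnion
    intro i _
    exact arc_cpt G g i
  · exact isCompact_Icc.prod (isCompact_Icc.prod isCompact_Icc)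

lemma pt_box (G : Gd) (g i m : ℕ) (hm : m ≤ g) (hi : i < G.nn g) (y : ℝ) (hy : G.Reach g y) :
    G.pt g i y ∈ (Set.Icc (0 : ℝ) ((1 / 2 : ℝ) ^ m) ×ˢ (Set.Icc (-((1 / 2 : ℝ) ^ m))
      ((1 / 2 : ℝ) ^ m) ×ˢ Set.Icc (-((1 / 2 : ℝ) ^ m)) ((1 / 2 : ℝ) ^ m))) := by
  obtain ⟨h0, h1, _⟩ := hy
  have hgm : (1 / 2 : ℝ) ^ g ≤ (1 / 2 : ℝ) ^ m :=
    pow_le_pow_of_le_one (by norm_num) (by norm_num) hm
  have hg0 : (0 : ℝ) < (1 / 2 : ℝ) ^ g := by positivity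
  have hn0 : (0 : ℝ) < (1 / 2 : ℝ) ^ G.nn g := by positivity
  have hn1 : (1 / 2 : ℝ) ^ G.nn g ≤ 1 := pow_le_one₀ (by norm_num) (by norm_num)
  have he : G.eps g = (1 / 2 : ℝ) ^ g * (1 / 2 : ℝ) ^ G.nn g := by
    unfold Gd.eps
    rw [pow_add]
  have hi2 : (i : ℝ) * (1 / 2 : ℝ) ^ G.nn g ≤ 1 := by
    have h2 : i ≤ 2 ^ G.nn g := (hi.trans Nat.lt_two_pow_self).le
    have h3 : (i : ℝ) ≤ 2 ^ G.nn g := by exact_mod_cast h2
    have h4 : (2 : ℝ) ^ G.nn g * (1 / 2 : ℝ) ^ G.nn g = 1 := by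
      rw [← mul_pow]
      norm_num
    calc (i : ℝ) * (1 / 2 : ℝ) ^ G.nn g ≤ (2 : ℝ) ^ G.nn g * (1 / 2 : ℝ) ^ G.nn g :=
          mul_le_mul_of_nonneg_right h3 hn0.le
      _ = 1 := h4
  have hi0 : (0 : ℝ) ≤ i := Nat.cast_nonneg _
  have hyy : 0 ≤ y * (1 - y) := mul_nonneg h0 (by linarith)
  have hyy1 : y * (1 - y) ≤ 1 := by nlinarith
  unfold Gd.pt
  refine ⟨⟨hg0.le, hgm⟩, ⟨?_, ?_⟩, ?_, ?_⟩
  · have : 0 ≤ G.eps g * y := mul_nonneg (by rw [he]; positivity) h0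
    simp only
    linarith
  · simp only
    rw [he]
    have h5 : (1 / 2 : ℝ) ^ G.nn g * y ≤ 1 := by nlinarith
    calc (1 / 2 : ℝ) ^ g * (1 / 2 : ℝ) ^ G.nn g * y = (1 / 2 : ℝ) ^ g * ((1 / 2 : ℝ) ^ G.nn g * y) := by
          ring
      _ ≤ (1 / 2 : ℝ) ^ g * 1 := mul_le_mul_of_nonneg_left h5 hg0.le
      _ ≤ (1 / 2 : ℝ) ^ m := by rw [mul_one]; exact hgm
  · have : 0 ≤ G.eps g * (i * (y * (1 - y))) := mul_nonneg (by rw [he]; positivity) (by positivity)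
    simp only
    linarith
  · simp only
    rw [he]
    have h5 : ((i : ℝ) * (1 / 2 : ℝ) ^ G.nn g) * (y * (1 - y)) ≤ 1 * 1 :=
      mul_le_mul hi2 hyy1 hyy (by norm_num)
    calc (1 / 2 : ℝ) ^ g * (1 / 2 : ℝ) ^ G.nn g * (i * (y * (1 - y))) =
          (1 / 2 : ℝ) ^ g * (((i : ℝ) * (1 / 2 : ℝ) ^ G.nn g) * (y * (1 - y))) := by ring
      _ ≤ (1 / 2 : ℝ) ^ g * (1 * 1) := mul_le_mul_of_nonneg_left h5 hg0.le
      _ ≤ (1 / 2 : ℝ) ^ m := by rw [mul_one, mul_one]; exact hgm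

theorem compact : S_compact := by
  intro G
  have hsub : ∀ m, G.Sp ⊆ SA G m := by
    intro m p hp
    rcases hp with ⟨x, h0, h1, rfl⟩ | ⟨g, i, y, hi, hy, rfl⟩
    · exact Or.inl ⟨x, ⟨h0, h1⟩, rfl⟩
    · right
      by_cases hg : g < m
      · left
        simp only [Set.mem_iUnion, Finset.mem_range]
        exact ⟨g, hg, i, hi, y, hy, rfl⟩
      · right
        exact pt_box G g i m (by omega) hi y hy
  have heq : G.Sp = ⋂ m, SA G m := by
    apply Set.Subset.antisymm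
    · exact Set.subset_iInter hsub
    · intro p hp
      by_contra hnp
      rw [Set.mem_iInter] at hp
      have hbox : ∀ m : ℕ, p ∈ (Set.Icc (0 : ℝ) ((1 / 2 : ℝ) ^ m) ×ˢ (Set.Icc (-((1 / 2 : ℝ) ^ m))
          ((1 / 2 : ℝ) ^ m) ×ˢ Set.Icc (-((1 / 2 : ℝ) ^ m)) ((1 / 2 : ℝ) ^ m))) := by
        intro m
        rcases hp m with ⟨x, hx, rfl⟩ | h | h
        · exact absurd (Or.inl ⟨x, hx.1, hx.2, rfl⟩) hnp
        · simp only [Set.mem_iUnion, Finset.mem_range] at h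
          obtain ⟨g, _, i, hi, y, hy, rfl⟩ := h
          exact absurd (Or.inr ⟨g, i, y, hi, hy, rfl⟩) hnp
        · exact h
      have hlim : Filter.Tendsto (fun m : ℕ => (1 / 2 : ℝ) ^ m) Filter.atTop (nhds 0) :=
        tendsto_pow_atTop_nhds_zero_of_lt_one (by norm_num) (by norm_num)
      have hz : ∀ z : ℝ, (∀ m : ℕ, |z| ≤ (1 / 2 : ℝ) ^ m) → z = 0 := by
        intro z hz
        have h1 : |z| ≤ 0 := ge_of_tendsto' hlim hz
        exact abs_eq_zero.mp (le_antisymm h1 (abs_nonneg z))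
      have z1 : p.1 = 0 := hz _ (fun m => by
        have := (hbox m).1
        rw [abs_of_nonneg this.1]
        exact this.2)
      have z2 : p.2.1 = 0 := hz _ (fun m => abs_le.mpr (hbox m).2.1)
      have z3 : p.2.2 = 0 := hz _ (fun m => abs_le.mpr (hbox m).2.2)
      apply hnp
      left
      refine ⟨0, le_refl _, zero_le_one, ?_⟩
      ext
      · exact z1
      · exact z2
      · exact z3
  apply (SA_cpt G 0).of_isClosed_subset _ (hsub 0)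
  rw [heq]
  exact isClosed_iInter (fun m => (SA_cpt G m).isClosed)

end Pool.Agent.W612.LP
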