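import Pool.Agent.W952.LP.Stm

/-!
# Compact subsets of the space have covering dimension at most 7 (project LP)
-/

set_option autoImplicit false

namespace Pool.Agent.W612.LP

open Pool.Agent.W952.LP

lemma slab_iff (h x : ℝ) (hh : 0 < h) (a : ℤ) (h1 : h * (a - 1) < x) (h2 : x < h * (a + 1)) :
    a ∈ ({⌊x / h⌋, ⌊x / h⌋ + 1} : Finset ℤ) := by
  have g1 : (a : ℝ) - 1 < x / h := by
    rw [lt_div_iff₀ hh]; linarith
  have g2 : x / h < a + 1 := by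
    rw [div_lt_iff₀ hh]; linarith
  have f1 := Int.floor_le (x / h)
  have f2 := Int.lt_floor_add_one (x / h)
  have g3 : (a : ℝ) < ⌊x / h⌋ + 2 := by linarith
  have g4 : (⌊x / h⌋ : ℝ) < a + 1 := by linarith
  have g5 : a < ⌊x / h⌋ + 2 := by exact_mod_cast g3
  have g6 : ⌊x / h⌋ < a + 1 := by exact_mod_cast g4
  rw [Finset.mem_insert, Finset.mem_singleton]
  omega

lemma slab_floor (h x : ℝ) (hh : 0 < h) :
    h * ((⌊x / h⌋ : ℤ) - 1) < x ∧ x < h * ((⌊x / h⌋ : ℤ) + 1) := by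
  have f1 := Int.floor_le (x / h)
  have f2 := Int.lt_floor_add_one (x / h)
  rw [le_div_iff₀ hh] at f1
  rw [div_lt_iff₀ hh] at f2
  constructor <;> nlinarith

lemma slab_bdd (h x R : ℝ) (hh : 0 < h) (hx : |x| ≤ R) (a : ℤ) (h1 : h * (a - 1) < x)
    (h2 : x < h * (a + 1)) : a ∈ Finset.Icc (-(⌈R / h⌉ + 1)) (⌈R / h⌉ + 1) := by
  have g1 : (a : ℝ) - 1 < x / h := by
    rw [lt_div_iff₀ hh]; linarith
  have g2 : x / h < a + 1 := by
    rw [div_lt_iff₀ hh]; linarith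
  have hx' := abs_le.mp hx
  have g3 : x / h ≤ R / h := div_le_div_of_nonneg_right hx'.2 hh.le
  have g4 : -(R / h) ≤ x / h := by
    rw [← neg_div]
    exact div_le_div_of_nonneg_right hx'.1 hh.le
  have c1 := Int.le_ceil (R / h)
  have e1 : (a : ℝ) < ((⌈R / h⌉ + 1 : ℤ) : ℝ) := by push_cast; linarith
  have e2 : ((-(⌈R / h⌉ + 1) : ℤ) : ℝ) < (a : ℝ) := by push_cast; linarith
  rw [Finset.mem_Icc]
  constructor
  · exact_mod_cast e2.le
  · exact_mod_cast e1.le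

theorem dim : S_dim := by
  intro K hK ι _ U hU hcov
  have : CompactSpace K := isCompact_iff_compactSpace.mp hK
  obtain ⟨δ, hδ, hball⟩ := lebesgue_number_lemma_of_metric (s := (Set.univ : Set K))
    isCompact_univ hU (by rw [hcov])
  set h := δ / 2 with hh
  have hh0 : 0 < h := by positivity
  set V : ℤ × ℤ × ℤ → Set K := fun k => {x | (h * (k.1 - 1) < x.1.1 ∧ x.1.1 < h * (k.1 + 1)) ∧
    (h * (k.2.1 - 1) < x.1.2.1 ∧ x.1.2.1 < h * (k.2.1 + 1)) ∧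
    (h * (k.2.2 - 1) < x.1.2.2 ∧ x.1.2.2 < h * (k.2.2 + 1))} with hV
  have hVo : ∀ k, IsOpen (V k) := by
    intro k
    have c1 : Continuous (fun x : K => x.1.1) := by fun_prop
    have c2 : Continuous (fun x : K => x.1.2.1) := by fun_prop
    have c3 : Continuous (fun x : K => x.1.2.2) := by fun_prop
    exact ((isOpen_lt continuous_const c1).inter (isOpen_lt c1 continuous_const)).inter
      (((isOpen_lt continuous_const c2).inter (isOpen_lt c2 continuous_const)).inter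
      ((isOpen_lt continuous_const c3).inter (isOpen_lt c3 continuous_const)))
  obtain ⟨R, hR⟩ := hK.isBounded.exists_norm_le
  have hR1 : ∀ x : K, |x.1.1| ≤ R ∧ |x.1.2.1| ≤ R ∧ |x.1.2.2| ≤ R := by
    intro x
    have h1 := hR x.1 x.2
    rw [Prod.norm_def, Prod.norm_def] at h1
    simp only [Real.norm_eq_abs] at h1
    exact ⟨(le_max_left _ _).trans h1, (le_max_left _ _).trans ((le_max_right _ _).trans h1),
      (le_max_right _ _).trans ((le_max_right _ _).trans h1)⟩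
  have hfin : {k : ℤ × ℤ × ℤ | (V k).Nonempty}.Finite := by
    set I := Finset.Icc (-(⌈R / h⌉ + 1)) (⌈R / h⌉ + 1) with hI
    apply Set.Finite.subset (I ×ˢ (I ×ˢ I)).finite_toSet
    rintro k ⟨x, hx⟩
    obtain ⟨b1, b2, b3⟩ := hR1 x
    rw [Finset.mem_coe, Finset.mem_product, Finset.mem_product]
    exact ⟨slab_bdd h _ R hh0 b1 _ hx.1.1 hx.1.2, slab_bdd h _ R hh0 b2 _ hx.2.1.1 hx.2.1.2,
      slab_bdd h _ R hh0 b3 _ hx.2.2.1 hx.2.2.2⟩
  refine ⟨{k : ℤ × ℤ × ℤ // (V k).Nonempty}, hfin.to_subtype, fun k => V k.1, fun k => hVo k.1,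
    ?_, ?_, ?_⟩
  · rw [Set.eq_univ_iff_forall]
    intro x
    rw [Set.mem_iUnion]
    have hx : x ∈ V (⌊x.1.1 / h⌋, ⌊x.1.2.1 / h⌋, ⌊x.1.2.2 / h⌋) :=
      ⟨slab_floor h _ hh0, slab_floor h _ hh0, slab_floor h _ hh0⟩
    exact ⟨⟨_, x, hx⟩, hx⟩
  · rintro ⟨k, x, hx⟩
    obtain ⟨i, hi⟩ := hball x (Set.mem_univ _)
    refine ⟨i, fun y hy => hi ?_⟩
    rw [Metric.mem_ball, Subtype.dist_eq, Prod.dist_eq, Prod.dist_eq, max_lt_iff, max_lt_iff]
    simp only [Real.dist_eq, abs_lt]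
    have hy' : y ∈ V k := hy
    obtain ⟨⟨x1, x2⟩, ⟨x3, x4⟩, x5, x6⟩ := hx
    obtain ⟨⟨y1, y2⟩, ⟨y3, y4⟩, y5, y6⟩ := hy'
    have e : δ = h + h := by rw [hh]; ring
    refine ⟨⟨?_, ?_⟩, ⟨?_, ?_⟩, ?_, ?_⟩ <;> nlinarith
  · intro x
    set S : Finset (ℤ × ℤ × ℤ) := ({⌊x.1.1 / h⌋, ⌊x.1.1 / h⌋ + 1} : Finset ℤ) ×ˢ
      (({⌊x.1.2.1 / h⌋, ⌊x.1.2.1 / h⌋ + 1} : Finset ℤ) ×ˢ
      ({⌊x.1.2.2 / h⌋, ⌊x.1.2.2 / h⌋ + 1} : Finset ℤ)) with hS
    have hsub : (Subtype.val '' {k : {k : ℤ × ℤ × ℤ // (V k).Nonempty} | x ∈ V k.1}) ⊆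
        (S : Set (ℤ × ℤ × ℤ)) := by
      rintro _ ⟨k, hk, rfl⟩
      have hk' : x ∈ V k.1 := hk
      rw [Finset.mem_coe, hS, Finset.mem_product, Finset.mem_product]
      exact ⟨slab_iff h _ hh0 _ hk'.1.1 hk'.1.2, slab_iff h _ hh0 _ hk'.2.1.1 hk'.2.1.2,
        slab_iff h _ hh0 _ hk'.2.2.1 hk'.2.2.2⟩
    rw [← Set.ncard_image_of_injective _ Subtype.val_injective]
    refine (Set.ncard_le_ncard hsub S.finite_toSet).trans ?_
    rw [Set.ncard_coe_finset, hS, Finset.card_product, Finset.card_product]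
    have c1 := Finset.card_le_two (a := ⌊x.1.1 / h⌋) (b := ⌊x.1.1 / h⌋ + 1)
    have c2 := Finset.card_le_two (a := ⌊x.1.2.1 / h⌋) (b := ⌊x.1.2.1 / h⌋ + 1)
    have c3 := Finset.card_le_two (a := ⌊x.1.2.2 / h⌋) (b := ⌊x.1.2.2 / h⌋ + 1)
    have c4 := Nat.mul_le_mul c2 c3
    have c5 := Nat.mul_le_mul c1 c4
    omega

end Pool.Agent.W612.LP
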