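import Pool.Agent.W952.LP.Stm

/-!
# The pattern at a complete gadget (project LP)
-/

set_option autoImplicit false

namespace Pool.Agent.W612.LP.Room

open Pool.Agent.W952.LP

variable (G : Gd) (g : ℕ)

lemma eps_pos : 0 < G.eps g := by
  unfold Gd.eps
  positivity

/-- heights above `c` -/
def GT (c : ℝ) : Set (ℝ × ℝ × ℝ) := {p | p.1 = (1 / 2 : ℝ) ^ g ∧ G.eps g * c < p.2.1}

/-- heights at least `c` -/
def GE (c : ℝ) : Set (ℝ × ℝ × ℝ) := {p | p.1 = (1 / 2 : ℝ) ^ g ∧ G.eps g * c ≤ p.2.1}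

/-- the closed sets -/
noncomputable def KS (t : ℕ) : Set (ℝ × ℝ × ℝ) :=
  if t = 0 then GE G g (4 / 5) else if t = 1 then (GT G g (1 / 5))ᶜ
  else G.arcC g ((t - 2) / 3) ((3 - ((t - 2) % 3 : ℕ)) / 5) ((4 - ((t - 2) % 3 : ℕ)) / 5)

/-- the open sets -/
noncomputable def US (t : ℕ) : Set (ℝ × ℝ × ℝ) :=
  if t = 0 then GT G g (3 / 4) else if t = 1 then (GE G g (1 / 4))ᶜ
  else G.arcO g ((t - 2) / 3) ((3 - ((t - 2) % 3 : ℕ)) / 5 - 1 / 20)
    ((4 - ((t - 2) % 3 : ℕ)) / 5 + 1 / 20)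

/-- closed sets containing the closures -/
noncomputable def CS (t : ℕ) : Set (ℝ × ℝ × ℝ) :=
  if t = 0 then GE G g (3 / 4) else if t = 1 then (GT G g (1 / 4))ᶜ
  else G.arcC g ((t - 2) / 3) ((3 - ((t - 2) % 3 : ℕ)) / 5 - 1 / 20)
    ((4 - ((t - 2) % 3 : ℕ)) / 5 + 1 / 20)

variable {G g}

lemma reach_iff (hc : G.Complete g) (y : ℝ) : G.Reach g y ↔ 0 ≤ y ∧ y ≤ 1 :=
  ⟨fun h => ⟨h.1, h.2.1⟩, fun h => ⟨h.1, h.2, Or.inl hc⟩⟩

lemma pt_mem (i : ℕ) (hi : i < G.nn g) (y : ℝ) (hy : G.Reach g y) : G.pt g i y ∈ G.Sp :=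
  Or.inr ⟨g, i, y, hi, hy, rfl⟩

lemma pt_fst (h i : ℕ) (y : ℝ) : (G.pt h i y).1 = (1 / 2 : ℝ) ^ h := rfl

lemma pt_snd (h i : ℕ) (y : ℝ) : (G.pt h i y).2.1 = G.eps h * y := rfl

lemma half_inj {a b : ℕ} (h : (1 / 2 : ℝ) ^ a = (1 / 2 : ℝ) ^ b) : a = b :=
  pow_right_injective₀ (by norm_num) (by norm_num) h

lemma rr (t : ℕ) : (((t - 2) % 3 : ℕ) : ℝ) = 0 ∨ (((t - 2) % 3 : ℕ) : ℝ) = 1 ∨
    (((t - 2) % 3 : ℕ) : ℝ) = 2 := by
  have h : (t - 2) % 3 = 0 ∨ (t - 2) % 3 = 1 ∨ (t - 2) % 3 = 2 := by omega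
  rcases h with h | h | h
  · left; exact_mod_cast h
  · right; left; exact_mod_cast h
  · right; right; exact_mod_cast h

/-- `GT c` is relatively open -/
lemma GT_open (hfib : S_fib) (hbun : S_bun) (c : ℝ) (hc : 0 ≤ c) :
    IsOpen ((Subtype.val : G.Sp → ℝ × ℝ × ℝ) ⁻¹' (GT G g c)) := by
  obtain ⟨_, ⟨O, hO, hOS⟩, _⟩ := hbun G g
  have he := eps_pos G g
  have : (Subtype.val : G.Sp → ℝ × ℝ × ℝ) ⁻¹' (GT G g c) =
      (Subtype.val : G.Sp → ℝ × ℝ × ℝ) ⁻¹' (O ∩ {p | G.eps g * c < p.2.1}) := by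
    ext ⟨p, hp⟩
    constructor
    · rintro ⟨h1, h2⟩
      refine ⟨?_, h2⟩
      have h3 := (hfib G p hp).2.2.2 g h1
      rcases h3 with h3 | h3
      · exfalso
        simp only at h2
        rw [h3] at h2
        simp only at h2
        have : 0 ≤ G.eps g * c := mul_nonneg he.le hc
        linarith
      · rw [← hOS] at h3
        exact h3.1
    · rintro ⟨h1, h2⟩
      have h3 : p ∈ G.bun g := by
        rw [← hOS]
        exact ⟨h1, hp⟩
      obtain ⟨i, y, _, _, _, rfl⟩ := h3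
      exact ⟨rfl, h2⟩
  rw [this]
  exact (hO.inter (isOpen_lt continuous_const (continuous_fst.comp continuous_snd))).preimage
    continuous_subtype_val

lemma GE_closed (c : ℝ) : IsClosed (GE G g c) :=
  (isClosed_eq continuous_fst continuous_const).inter
    (isClosed_le continuous_const (continuous_fst.comp continuous_snd))

lemma pt_cont (h i : ℕ) : Continuous (G.pt h i) := by
  unfold Gd.pt
  fun_prop

lemma arcO_eq (hc : G.Complete g) (i : ℕ) (a b : ℝ) (ha : 0 < a) (hb : b < 1) :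
    G.arcO g i a b = G.pt g i '' Set.Ioo a b := by
  ext p
  constructor
  · rintro ⟨y, h1, h2, _, _, _, rfl⟩
    exact ⟨y, ⟨h1, h2⟩, rfl⟩
  · rintro ⟨y, ⟨h1, h2⟩, rfl⟩
    exact ⟨y, h1, h2, by linarith, by linarith,
      (reach_iff hc y).mpr ⟨by linarith, by linarith⟩, rfl⟩

lemma preconn_sub (A : Set (ℝ × ℝ × ℝ)) (hA : IsPreconnected (A ∩ G.Sp)) :
    IsPreconnected ((Subtype.val : G.Sp → ℝ × ℝ × ℝ) ⁻¹' A) := by
  rw [← Topology.IsInducing.subtypeVal.isPreconnected_image, Subtype.image_preimage_coe,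
    Set.inter_comm]
  exact hA

lemma conn0 (hfib : S_fib) (hc : G.Complete g) :
    IsPreconnected (GT G g (3 / 4) ∩ G.Sp) := by
  have he := eps_pos G g
  have hone : ∀ i : ℕ, G.pt g i 1 = G.pt g 0 1 := by
    intro i
    unfold Gd.pt
    simp
  apply isPreconnected_of_forall (G.pt g 0 1)
  intro p hp
  obtain ⟨⟨h1, h2⟩, h3⟩ := hp
  rcases (hfib G p h3).2.2.2 g h1 with h4 | h4
  · exfalso
    rw [h4] at h2
    simp only at h2
    nlinarith
  · obtain ⟨i, y, hi, hy0, hy, rfl⟩ := h4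
    have hy1 : y ≤ 1 := hy.2.1
    rw [pt_snd] at h2
    have hy2 : 3 / 4 < y := lt_of_mul_lt_mul_left h2 he.le
    refine ⟨G.pt g i '' Set.Icc y 1, ?_, ⟨1, ⟨hy1, le_refl _⟩, hone i⟩, ⟨y, ⟨le_refl _, hy1⟩, rfl⟩,
      isPreconnected_Icc.image _ (pt_cont g i).continuousOn⟩
    rintro _ ⟨z, ⟨hz1, hz2⟩, rfl⟩
    refine ⟨⟨rfl, ?_⟩, pt_mem i hi z ((reach_iff hc z).mpr ⟨by linarith, hz2⟩)⟩
    rw [pt_snd]
    exact mul_lt_mul_of_pos_left (by linarith) he

lemma reach_mono (h : ℕ) (y z : ℝ) (hy : G.Reach h y) (hz0 : 0 ≤ z) (hzy : z ≤ y) :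
    G.Reach h z := by
  obtain ⟨_, h1, h2⟩ := hy
  refine ⟨hz0, hzy.trans h1, ?_⟩
  rcases h2 with h2 | ⟨b, h3, h4⟩
  · exact Or.inl h2
  · exact Or.inr ⟨b, h3, hzy.trans h4⟩

/-- the spine -/
def spine : Set (ℝ × ℝ × ℝ) := (fun x : ℝ => ((x, 0, 0) : ℝ × ℝ × ℝ)) '' Set.Icc 0 1

lemma spine_conn : IsPreconnected spine := isPreconnected_Icc.image _ (by fun_prop)

lemma spine_sub : spine ⊆ (GE G g (1 / 4))ᶜ ∩ G.Sp := by
  rintro _ ⟨x, hx, rfl⟩
  have he := eps_pos G g
  refine ⟨fun h => ?_, Or.inl ⟨x, hx.1, hx.2, rfl⟩⟩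
  have := h.2
  simp only at this
  nlinarith

lemma conn1 : IsPreconnected ((GE G g (1 / 4))ᶜ ∩ G.Sp) := by
  have he := eps_pos G g
  have h0 : ((0, 0, 0) : ℝ × ℝ × ℝ) ∈ spine := ⟨0, ⟨le_refl _, zero_le_one⟩, rfl⟩
  apply isPreconnected_of_forall ((0, 0, 0) : ℝ × ℝ × ℝ)
  intro p hp
  obtain ⟨h1, h2⟩ := hp
  rcases h2 with ⟨x, hx0, hx1, rfl⟩ | ⟨h, i, y, hi, hy, rfl⟩
  · exact ⟨spine, spine_sub, h0, ⟨x, ⟨hx0, hx1⟩, rfl⟩, spine_conn⟩
  · have hy0 : 0 ≤ y := hy.1
    refine ⟨spine ∪ G.pt h i '' Set.Icc 0 y, ?_, Or.inl h0, Or.inr ⟨y, ⟨hy0, le_refl _⟩, rfl⟩, ?_⟩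
    · apply Set.union_subset spine_sub
      rintro _ ⟨z, ⟨hz0, hz1⟩, rfl⟩
      refine ⟨fun hcon => ?_, Or.inr ⟨h, i, z, hi, reach_mono h y z hy hz0 hz1, rfl⟩⟩
      apply h1
      obtain ⟨c1, c2⟩ := hcon
      rw [pt_fst] at c1
      have hgh : h = g := half_inj c1
      subst hgh
      refine ⟨rfl, ?_⟩
      rw [pt_snd] at c2 ⊢
      exact c2.trans (mul_le_mul_of_nonneg_left hz1 he.le)
    · apply IsPreconnected.union' _ spine_conn (isPreconnected_Icc.image _ (pt_cont h i).continuousOn)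
      refine ⟨((1 / 2 : ℝ) ^ h, 0, 0), ⟨(1 / 2 : ℝ) ^ h, ⟨by positivity,
        pow_le_one₀ (by norm_num) (by norm_num)⟩, rfl⟩, 0, ⟨le_refl _, hy0⟩, ?_⟩
      unfold Gd.pt
      simp

lemma idx (t n : ℕ) (h2 : 2 ≤ t) (ht : t < 3 * n + 2) : (t - 2) / 3 < n := by omega

lemma arcC_mem (hc : G.Complete g) (i : ℕ) (a b y : ℝ) (h1 : a ≤ y) (h2 : y ≤ b) (h3 : 0 ≤ y)
    (h4 : y ≤ 1) : G.pt g i y ∈ G.arcC g i a b :=
  ⟨y, h1, h2, (reach_iff hc y).mpr ⟨h3, h4⟩, rfl⟩

theorem room (hinj : S_inj) (hfib : S_fib) (hbun : S_bun) (harcO : S_arcO) (harcC : S_arcC) :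
    S_room := by
  intro G g hc hn
  have he := eps_pos G g
  set v : G.Sp → ℝ × ℝ × ℝ := Subtype.val with hv
  have hvc : Continuous v := continuous_subtype_val
  have hK0 : KS G g 0 = GE G g (4 / 5) := by unfold KS; simp
  have hK1 : KS G g 1 = (GT G g (1 / 5))ᶜ := by unfold KS; simp
  have hK2 : ∀ t, 2 ≤ t → KS G g t = G.arcC g ((t - 2) / 3) ((3 - ((t - 2) % 3 : ℕ)) / 5)
      ((4 - ((t - 2) % 3 : ℕ)) / 5) := by
    intro t ht
    unfold KS
    rw [if_neg (by omega), if_neg (by omega)]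
  have hU0 : US G g 0 = GT G g (3 / 4) := by unfold US; simp
  have hU1 : US G g 1 = (GE G g (1 / 4))ᶜ := by unfold US; simp
  have hU2 : ∀ t, 2 ≤ t → US G g t = G.arcO g ((t - 2) / 3) ((3 - ((t - 2) % 3 : ℕ)) / 5 - 1 / 20)
      ((4 - ((t - 2) % 3 : ℕ)) / 5 + 1 / 20) := by
    intro t ht
    unfold US
    rw [if_neg (by omega), if_neg (by omega)]
  have hC0 : CS G g 0 = GE G g (3 / 4) := by unfold CS; simp
  have hC1 : CS G g 1 = (GT G g (1 / 4))ᶜ := by unfold CS; simp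
  have hC2 : ∀ t, 2 ≤ t → CS G g t = G.arcC g ((t - 2) / 3) ((3 - ((t - 2) % 3 : ℕ)) / 5 - 1 / 20)
      ((4 - ((t - 2) % 3 : ℕ)) / 5 + 1 / 20) := by
    intro t ht
    unfold CS
    rw [if_neg (by omega), if_neg (by omega)]
  have hcases : ∀ t : ℕ, t = 0 ∨ t = 1 ∨ 2 ≤ t := fun t => by omega
  -- the closures
  have hclo : ∀ t, closure (v ⁻¹' (US G g t)) ⊆ v ⁻¹' (CS G g t) := by
    intro t
    apply closure_minimal
    · apply Set.preimage_mono
      rcases hcases t with rfl | rfl | ht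
      · rw [hU0, hC0]
        exact fun p hp => ⟨hp.1, hp.2.le⟩
      · rw [hU1, hC1]
        exact Set.compl_subset_compl.mpr (fun p hp => ⟨hp.1, hp.2.le⟩)
      · rw [hU2 t ht, hC2 t ht]
        rintro p ⟨y, h1, h2, _, _, h3, rfl⟩
        exact ⟨y, h1.le, h2.le, h3, rfl⟩
    · rcases hcases t with rfl | rfl | ht
      · rw [hC0]
        exact (GE_closed _).preimage hvc
      · rw [hC1, Set.preimage_compl]
        exact (GT_open hfib hbun _ (by norm_num)).isClosed_compl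
      · rw [hC2 t ht]
        exact (harcC G g _ _ _).1.isClosed.preimage hvc
  -- membership of arc points
  have hmem : ∀ t, 2 ≤ t → t < 3 * G.nn g + 2 → ∀ y : ℝ, (3 - ((t - 2) % 3 : ℕ)) / 5 ≤ y →
      y ≤ (4 - ((t - 2) % 3 : ℕ)) / 5 → G.pt g ((t - 2) / 3) y ∈ KS G g t ∧
        G.pt g ((t - 2) / 3) y ∈ G.Sp := by
    intro t ht1 ht2 y hy1 hy2
    have h0 : 0 ≤ y ∧ y ≤ 1 := by
      rcases rr t with h | h | h <;> rw [h] at hy1 hy2 <;> constructor <;> linarith
    rw [hK2 t ht1]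
    exact ⟨arcC_mem hc _ _ _ y hy1 hy2 h0.1 h0.2, pt_mem _ (idx t _ ht1 ht2) y
      ((reach_iff hc y).mpr h0)⟩
  refine ⟨fun t => v ⁻¹' (KS G g t), fun t => v ⁻¹' (US G g t), ?_, ?_, ?_, ?_, ?_, ?_, ?_, ?_⟩
  · -- closed
    intro t _
    rcases hcases t with rfl | rfl | ht
    · rw [hK0]
      exact (GE_closed _).preimage hvc
    · rw [hK1, Set.preimage_compl]
      exact (GT_open hfib hbun _ (by norm_num)).isClosed_compl
    · rw [hK2 t ht]
      exact (harcC G g _ _ _).1.isClosed.preimage hvc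
  · -- nonempty
    intro t ht'
    rcases hcases t with rfl | rfl | ht
    · refine ⟨⟨G.pt g 0 1, pt_mem 0 hn 1 ((reach_iff hc 1).mpr ⟨zero_le_one, le_refl _⟩)⟩, ?_⟩
      change G.pt g 0 1 ∈ KS G g 0
      rw [hK0]
      refine ⟨rfl, ?_⟩
      rw [pt_snd]
      nlinarith
    · refine ⟨⟨(0, 0, 0), Or.inl ⟨0, le_refl _, zero_le_one, rfl⟩⟩, ?_⟩
      change ((0, 0, 0) : ℝ × ℝ × ℝ) ∈ KS G g 1
      rw [hK1]
      intro h
      have h2 := h.2
      simp only at h2
      nlinarith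
    · have h := hmem t ht ht' ((3 - ((t - 2) % 3 : ℕ)) / 5) le_rfl (by linarith)
      exact ⟨⟨_, h.2⟩, h.1⟩
  · -- cover
    rintro ⟨p, hp⟩
    by_cases h1 : p.1 = (1 / 2 : ℝ) ^ g
    · rcases (hfib G p hp).2.2.2 g h1 with h2 | h2
      · refine ⟨1, by omega, ?_⟩
        change p ∈ KS G g 1
        rw [hK1]
        intro h
        have h3 := h.2
        rw [h2] at h3
        simp only at h3
        nlinarith
      · obtain ⟨i, y, hi, hy0, hy, rfl⟩ := h2
        have hy1 : y ≤ 1 := hy.2.1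
        have harc : ∀ r : ℕ, r ≤ 2 → (3 - (r : ℝ)) / 5 ≤ y → y ≤ (4 - (r : ℝ)) / 5 →
            ∃ t < 3 * G.nn g + 2, G.pt g i y ∈ KS G g t := by
          intro r hr h3 h4
          refine ⟨3 * i + 2 + r, by omega, ?_⟩
          rw [hK2 _ (by omega)]
          have e1 : (3 * i + 2 + r - 2) / 3 = i := by omega
          have e2 : (3 * i + 2 + r - 2) % 3 = r := by omega
          rw [e1, e2]
          exact ⟨y, h3, h4, hy, rfl⟩
        by_cases c1 : y ≤ 1 / 5
        · refine ⟨1, by omega, ?_⟩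
          change G.pt g i y ∈ KS G g 1
          rw [hK1]
          intro h
          have h3 := h.2
          rw [pt_snd] at h3
          have := lt_of_mul_lt_mul_left h3 he.le
          linarith
        · by_cases c2 : y ≤ 2 / 5
          · exact harc 2 (by norm_num) (by push_cast; linarith) (by push_cast; linarith)
          · by_cases c3 : y ≤ 3 / 5
            · exact harc 1 (by norm_num) (by push_cast; linarith) (by push_cast; linarith)
            · by_cases c4 : y ≤ 4 / 5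
              · exact harc 0 (by norm_num) (by push_cast; linarith) (by push_cast; linarith)
              · refine ⟨0, by omega, ?_⟩
                change G.pt g i y ∈ KS G g 0
                rw [hK0]
                refine ⟨rfl, ?_⟩
                rw [pt_snd]
                exact mul_le_mul_of_nonneg_left (by linarith) he.le
    · refine ⟨1, by omega, ?_⟩
      change p ∈ KS G g 1
      rw [hK1]
      exact fun h => h1 h.1
  · -- adjacency
    intro s t hst ht hadj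
    rcases hadj with ⟨rfl, h2⟩ | ⟨rfl, h2, h3⟩ | ⟨h1, h2, h3⟩
    · have ht2 : 2 ≤ t := by omega
      have hr : (t - 2) % 3 = 0 := by omega
      have h := hmem t ht2 ht (4 / 5) (by rw [hr]; norm_num) (by rw [hr]; norm_num)
      refine ⟨⟨_, h.2⟩, ?_, h.1⟩
      change _ ∈ KS G g 0
      rw [hK0]
      exact ⟨rfl, le_refl _⟩
    · have hr : (t - 2) % 3 = 2 := by omega
      have h := hmem t (by omega) ht (1 / 5) (by rw [hr]; norm_num) (by rw [hr]; norm_num)
      refine ⟨⟨_, h.2⟩, ?_, h.1⟩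
      change _ ∈ KS G g 1
      rw [hK1]
      intro h4
      exact lt_irrefl _ h4.2
    · subst h2
      have e1 : (s + 1 - 2) / 3 = (s - 2) / 3 := by omega
      have e2 : (s + 1 - 2) % 3 = (s - 2) % 3 + 1 := by omega
      have h := hmem s h1 (by omega) ((3 - ((s - 2) % 3 : ℕ)) / 5) le_rfl (by linarith)
      have h' := hmem (s + 1) (by omega) ht ((3 - ((s - 2) % 3 : ℕ)) / 5)
        (by rw [e2]; push_cast; linarith) (by rw [e2]; push_cast; linarith)
      rw [e1] at h'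
      exact ⟨⟨_, h.2⟩, h.1, h'.1⟩
  · -- open
    intro t ht'
    rcases hcases t with rfl | rfl | ht
    · rw [hU0]
      exact GT_open hfib hbun _ (by norm_num)
    · rw [hU1, Set.preimage_compl]
      exact ((GE_closed _).preimage hvc).isOpen_compl
    · rw [hU2 t ht]
      obtain ⟨O, hO, hOS⟩ := harcO G g ((t - 2) / 3) ((3 - ((t - 2) % 3 : ℕ)) / 5 - 1 / 20)
        ((4 - ((t - 2) % 3 : ℕ)) / 5 + 1 / 20) (idx t _ ht ht')
      rw [← hOS]
      have : v ⁻¹' (O ∩ G.Sp) = v ⁻¹' O := by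
        ext x
        exact ⟨fun h => h.1, fun h => ⟨h, x.2⟩⟩
      rw [this]
      exact hO.preimage hvc
  · -- preconnected
    intro t ht'
    rcases hcases t with rfl | rfl | ht
    · rw [hU0]
      exact preconn_sub _ (conn0 hfib hc)
    · rw [hU1]
      exact preconn_sub _ conn1
    · rw [hU2 t ht]
      apply preconn_sub
      have hr := rr t
      rw [arcO_eq hc _ _ _ (by rcases hr with h | h | h <;> rw [h] <;> norm_num)
        (by rcases hr with h | h | h <;> rw [h] <;> norm_num)]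
      have : G.pt g ((t - 2) / 3) '' Set.Ioo ((3 - ((t - 2) % 3 : ℕ)) / 5 - 1 / 20)
          ((4 - ((t - 2) % 3 : ℕ)) / 5 + 1 / 20) ⊆ G.Sp := by
        rintro _ ⟨y, ⟨h1, h2⟩, rfl⟩
        apply pt_mem _ (idx t _ ht ht')
        rw [reach_iff hc]
        rcases hr with h | h | h <;> rw [h] at h1 h2 <;> constructor <;> linarith
      rw [Set.inter_eq_left.mpr this]
      exact isPreconnected_Ioo.image _ (pt_cont g _).continuousOn
  · -- inclusion
    intro t _
    apply Set.preimage_mono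
    rcases hcases t with rfl | rfl | ht
    · rw [hK0, hU0]
      intro p hp
      exact ⟨hp.1, lt_of_lt_of_le (mul_lt_mul_of_pos_left (by norm_num) he) hp.2⟩
    · rw [hK1, hU1]
      apply Set.compl_subset_compl.mpr
      intro p hp
      exact ⟨hp.1, lt_of_lt_of_le (mul_lt_mul_of_pos_left (by norm_num) he) hp.2⟩
    · rw [hK2 t ht, hU2 t ht]
      rintro p ⟨y, h1, h2, h3, rfl⟩
      refine ⟨y, by linarith, by linarith, ?_, ?_, h3, rfl⟩ <;>
      · rcases rr t with h | h | h <;> rw [h] at h1 h2 <;> linarith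
  · -- disjoint closures
    intro s t hst ht hadj
    refine Set.disjoint_of_subset (hclo s) (hclo t) ?_
    apply Disjoint.preimage
    rw [Set.disjoint_left]
    intro p hps hpt
    rcases hcases s with rfl | rfl | hs
    · rw [hC0] at hps
      rcases hcases t with rfl | rfl | ht2
      · omega
      · rw [hC1] at hpt
        apply hpt
        exact ⟨hps.1, lt_of_lt_of_le (mul_lt_mul_of_pos_left (by norm_num) he) hps.2⟩
      · rw [hC2 t ht2] at hpt
        obtain ⟨y, h1, h2, h3, rfl⟩ := hpt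
        have h4 := hps.2
        rw [pt_snd] at h4
        have h5 := le_of_mul_le_mul_left h4 he
        have hr : (t - 2) % 3 ≠ 0 := by
          intro h0
          exact hadj (Or.inl ⟨rfl, by omega⟩)
        rcases rr t with h | h | h
        · exact hr (by exact_mod_cast h)
        · rw [h] at h2; linarith
        · rw [h] at h2; linarith
    · rw [hC1] at hps
      have ht2 : 2 ≤ t := by omega
      rw [hC2 t ht2] at hpt
      obtain ⟨y, h1, h2, h3, rfl⟩ := hpt
      apply hps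
      refine ⟨rfl, ?_⟩
      rw [pt_snd]
      apply mul_lt_mul_of_pos_left _ he
      have hr : (t - 2) % 3 ≠ 2 := by
        intro h0
        exact hadj (Or.inr (Or.inl ⟨rfl, by omega, by omega⟩))
      rcases rr t with h | h | h
      · rw [h] at h1; linarith
      · rw [h] at h1; linarith
      · exact absurd (by exact_mod_cast h) hr
    · have ht2 : 2 ≤ t := by omega
      rw [hC2 s hs] at hps
      rw [hC2 t ht2] at hpt
      obtain ⟨y, h1, h2, h3, h4⟩ := hps
      obtain ⟨z, g1, g2, g3, g4⟩ := hpt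
      rw [h4] at g4
      obtain ⟨_, hyz, hij⟩ := hinj G g g _ _ y z g4
      subst hyz
      have hy0 : y ≠ 0 := by
        rintro rfl
        rcases rr s with h | h | h <;> rw [h] at h1 h2 <;> linarith
      have hy1 : y ≠ 1 := by
        rintro rfl
        rcases rr s with h | h | h <;> rw [h] at h1 h2 <;> linarith
      have hij' : (s - 2) / 3 = (t - 2) / 3 := by
        rcases hij with h | h | h
        · exact h
        · exact absurd h hy0
        · exact absurd h hy1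
      have hr : (s - 2) % 3 = 0 ∧ (t - 2) % 3 = 2 := by
        by_contra hcon
        apply hadj
        right; right
        refine ⟨hs, by omega, by omega⟩
      rw [hr.1] at h1
      rw [hr.2] at g2
      push_cast at h1 g2
      linarith

end Pool.Agent.W612.LP.Room
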